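import Pool.Agent.H57.GH.Graph

/-!
# The complements of graph hypersurfaces are universal
-/

set_option autoImplicit false

open CategoryTheory AlgebraicGeometry MvPolynomial Pool.Agent.Y116.UV Pool.Agent.Z125.UN Matrix
  Pool.Agent.H57.ZP

namespace Pool.Agent.H57.GH

variable {R : Type} [CommRing R] {sep : Prop} {P : Sch R → Prop}

section degrees

variable {K : Type} [Fintype K] [DecidableEq K]

/-- the pairs of columns with elements in the same row -/
def SS (Z : K × K → Option R) : Set (Sym2 K) := {e | e.IsDiag ∨ ∃ i, ∀ x ∈ e, Z (i, x) ≠ some 0}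

omit [Fintype K] [DecidableEq K] in
lemma mem_SS (Z : K × K → Option R) (x y : K) :
    s(x, y) ∈ SS Z ↔ x = y ∨ ∃ i, Z (i, x) ≠ some 0 ∧ Z (i, y) ≠ some 0 := by
  unfold SS
  rw [Set.mem_setOf_eq, Sym2.mk_isDiag_iff]
  refine or_congr_right (exists_congr fun i => ?_)
  simp

omit [Fintype K] [DecidableEq K] in
lemma clo_SS (Z : K × K → Option R) : Clo (SS Z) Z :=
  fun i x y hx hy => (mem_SS Z x y).mpr (Or.inr ⟨i, hx, hy⟩)

lemma oneLarge (Z : K × K → Option R) [DecidablePred (· ∈ SS Z)] (hc : ∀ b, cd (Zo Z) b ≤ 3)
    (hr : ∀ a, rd (Zo Z) a ≤ 3) (Z' : K × K → Option R)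
    (hZ' : ∀ x, Z' x = Z x ∨ Z' x = some 0) :
    OneLarge (GY (Yp (SS Z) Z' ∅) (Yp_symm Z' ∅)) := by
  classical
  let Rw : K → Finset K := fun i => Finset.univ.filter fun j => ¬ Z (i, j) = some 0
  let Cl : K → Finset K := fun j => Finset.univ.filter fun i => ¬ Z (i, j) = some 0
  have hRw : ∀ i, (Rw i).card ≤ 3 := fun i => by
    have h := hr i
    rw [rd_card] at h
    convert h
    exact Iff.rfl
  have hCl : ∀ j, (Cl j).card ≤ 3 := fun j => by
    have h := hc j
    rw [cd_card] at h
    convert h
    exact Iff.rfl
  have hmR : ∀ i j, Z' (i, j) ≠ some 0 → j ∈ Rw i := by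
    intro i j h
    refine Finset.mem_filter.mpr ⟨Finset.mem_univ _, ?_⟩
    rcases hZ' (i, j) with h1 | h1
    · rwa [h1] at h
    · exact absurd h1 h
  have hmC : ∀ i j, Z' (i, j) ≠ some 0 → i ∈ Cl j := by
    intro i j h
    refine Finset.mem_filter.mpr ⟨Finset.mem_univ _, ?_⟩
    rcases hZ' (i, j) with h1 | h1
    · rwa [h1] at h
    · exact absurd h1 h
  refine ⟨none, fun v hv => ?_⟩
  rcases v with - | v
  · exact absurd rfl hv
  · rcases v with i | j
    · have h1 : (GY (Yp (SS Z) Z' ∅) (Yp_symm Z' ∅)).neighborSet (some (Sum.inl i)) ⊆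
          ((insert none ((Rw i).image fun j => some (Sum.inr j)) : Finset (Option (K ⊕ K))) :
            Set (Option (K ⊕ K))) := by
        intro q hq
        rw [SimpleGraph.mem_neighborSet] at hq
        refine Finset.mem_coe.mpr (Finset.mem_insert.mpr ?_)
        rcases q with - | q | q
        · exact Or.inl rfl
        · refine absurd ?_ (hq.2 (Sum.inl i) (Sum.inl q) rfl rfl)
          refine if_neg fun h' => hq.1 ?_
          rw [h'.1]
        · exact Or.inr (Finset.mem_image.mpr ⟨q, hmR i q (hq.2 (Sum.inl i) (Sum.inr q) rfl rfl),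
            rfl⟩)
      refine (Set.ncard_le_ncard h1 (Finset.finite_toSet _)).trans ?_
      rw [Set.ncard_coe_finset]
      refine (Finset.card_insert_le _ _).trans ?_
      have h2 := Finset.card_image_le (s := Rw i) (f := fun j => (some (Sum.inr j) : Option (K ⊕ K)))
      have h3 := hRw i
      omega
    · have h1 : (GY (Yp (SS Z) Z' ∅) (Yp_symm Z' ∅)).neighborSet (some (Sum.inr j)) ⊆
          ((insert none (((Cl j).image fun i => some (Sum.inl i)) ∪
            (((Cl j).biUnion fun i => (Rw i).erase j).image fun l => some (Sum.inr l))) :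
              Finset (Option (K ⊕ K))) : Set (Option (K ⊕ K))) := by
        intro q hq
        rw [SimpleGraph.mem_neighborSet] at hq
        refine Finset.mem_coe.mpr (Finset.mem_insert.mpr ?_)
        rcases q with - | q | q
        · exact Or.inl rfl
        · exact Or.inr (Finset.mem_union.mpr (Or.inl (Finset.mem_image.mpr ⟨q,
            hmC q j (hq.2 (Sum.inr j) (Sum.inl q) rfl rfl), rfl⟩)))
        · have h2 : s(j, q) ∈ SS Z := by
            by_contra h3
            exact hq.2 (Sum.inr j) (Sum.inr q) rfl rfl (if_neg h3)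
          have h3 : j ≠ q := fun h' => hq.1 (by rw [h'])
          obtain ⟨i, hi1, hi2⟩ := ((mem_SS Z j q).mp h2).resolve_left h3
          exact Or.inr (Finset.mem_union.mpr (Or.inr (Finset.mem_image.mpr ⟨q,
            Finset.mem_biUnion.mpr ⟨i, Finset.mem_filter.mpr ⟨Finset.mem_univ _, hi1⟩,
              Finset.mem_erase.mpr ⟨h3.symm, Finset.mem_filter.mpr ⟨Finset.mem_univ _, hi2⟩⟩⟩,
              rfl⟩)))
      refine (Set.ncard_le_ncard h1 (Finset.finite_toSet _)).trans ?_
      rw [Set.ncard_coe_finset]
      refine (Finset.card_insert_le _ _).trans ?_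
      have h2 := Finset.card_image_le (s := Cl j) (f := fun i => (some (Sum.inl i) : Option (K ⊕ K)))
      have h3 := Finset.card_image_le (s := (Cl j).biUnion fun i => (Rw i).erase j)
        (f := fun l => (some (Sum.inr l) : Option (K ⊕ K)))
      have h4 : ((Cl j).biUnion fun i => (Rw i).erase j).card ≤ (Cl j).card * 2 := by
        refine Finset.card_biUnion_le_card_mul _ _ _ fun i hi => ?_
        have h5 : j ∈ Rw i := Finset.mem_filter.mpr ⟨Finset.mem_univ _, (Finset.mem_filter.mp hi).2⟩
        have h6 := Finset.card_erase_of_mem h5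
        have h7 := hRw i
        omega
      have h5 := hCl j
      have h6 := Finset.card_union_le ((Cl j).image fun i => (some (Sum.inl i) : Option (K ⊕ K)))
        (((Cl j).biUnion fun i => (Rw i).erase j).image fun l => (some (Sum.inr l) :
          Option (K ⊕ K)))
      omega

omit [Fintype K] in
lemma diag_none (Z : K × K → Option R) [DecidablePred (· ∈ SS Z)] (Z' : K × K → Option R)
    (x : K ⊕ K) : Yp (SS Z) Z' ∅ (x, x) = none := by
  rcases x with x | x
  · exact if_pos ⟨rfl, Finset.notMem_empty x⟩
  · exact if_pos ((mem_SS Z x x).mpr (Or.inl rfl))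

end degrees

/-- **Weighted graphs.** -/
theorem universal_graphW [IsNoetherianRing R] (hP : Bnd sep P)
    (h : ∀ (V : Type) [Finite V] (G : SimpleGraph V) (w : G.edgeSet → Option R), OneLarge G →
      P (graphW G w)) (X : Sch R) (hX : FT sep X) : P X := by
  classical
  refine all_of_coreK hP (coreK_of_gl hP fun n Z => glk_of_three hP (fun K _ _ Z hc hr => ?_)
    (Fin n) Z) X hX
  exact glk_of_sym (S := SS Z) hP Z (clo_SS Z) fun Z' hZ' => sm_of_graph hP _ (Yp_symm Z' ∅)
    (diag_none Z Z') (has_graphW hP _ _ (h _ _ _ (oneLarge Z hc hr Z' hZ')))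

/-- **Graphs.** -/
theorem universal_graphS [IsNoetherianRing R] (hR : Pool.Agent.Q193.LT.Frac R) (hP : Bnd sep P)
    (h : ∀ (V : Type) [Finite V] (G : SimpleGraph V), OneLarge G → P (graphS R G)) (X : Sch R)
    (hX : FT sep X) : P X := by
  classical
  refine all_of_gl hR hP (fun n Z => gl_of_three hP (fun K _ _ Z hc hr => ?_) (Fin n) Z) X hX
  let Zk : K × K → Option R := fun x => if Z x.1 x.2 then some 0 else none
  have hZk : ∀ a b, Z a b → Zo Zk a b := fun a b h => if_pos h
  have hZk' : ∀ a b, Zo Zk a b → Z a b := by
    intro a b h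
    by_contra h1
    have h2 : Zk (a, b) = none := if_neg h1
    exact Option.some_ne_none (0 : R) ((h : Zk (a, b) = some 0).symm.trans h2)
  have h1 : Has P (GLk K Zk) := by
    refine glk_of_sym (S := SS Zk) hP Zk (clo_SS Zk) fun Z' hZ' => sm_of_graph hP _ (Yp_symm Z' ∅)
      (diag_none Zk Z') (has_graphS' hP _ _ (fun e => ?_) (h _ _ (oneLarge Zk
        (fun b => (cd_mono b fun a => hZk a b).trans (hc b))
        (fun a => (rd_mono a fun b => hZk a b).trans (hr a)) Z' hZ')))
    obtain ⟨e, he⟩ := e
    change wS _ _ e = none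
    induction e using Sym2.ind with
    | _ p q =>
      rcases p with - | x
      · rfl
      · rcases q with - | y
        · rfl
        · have h2 := ((GY_some _ _).mp he).2
          have h3 : Yp (SS Zk) Z' ∅ (x, y) = none := by
            have hz : ∀ a b, Z' (a, b) = none ∨ Z' (a, b) = some 0 := by
              intro a b
              rcases hZ' (a, b) with h4 | h4
              · rw [h4]
                change (if Z a b then some 0 else none) = none ∨
                  (if Z a b then some 0 else none) = some 0
                split_ifs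
                · exact Or.inr rfl
                · exact Or.inl rfl
              · exact Or.inr h4
            rcases x with x | x
            · rcases y with y | y
              · change (if x = y ∧ x ∉ (∅ : Finset K) then none else some 0) = none
                by_contra h4
                refine h2 (if_neg fun h5 => h4 (if_pos h5))
              · exact (hz x y).resolve_right h2
            · rcases y with y | y
              · exact (hz y x).resolve_right h2
              · change (if s(x, y) ∈ SS Zk then none else some 0) = none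
                by_contra h4
                refine h2 (if_neg fun h5 => h4 (if_pos h5))
          change (Yp (SS Zk) Z' ∅ (x, y)).map _ = none
          rw [h3]
          rfl
  refine h1.congr fun C _ _ u => ?_
  refine and_congr_left fun _ => ⟨fun h2 a b hab => ?_, fun h2 x c hx => ?_⟩
  · have := h2 (a, b) 0 (hZk a b hab)
    rwa [map_zero] at this
  · change (if Z x.1 x.2 then some 0 else none) = some c at hx
    split_ifs at hx with h3
    rw [← Option.some_injective _ hx, map_zero]
    exact h2 x.1 x.2 h3

/-- the complement of a hypersurface in an affine space -/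
lemma loc_of_quot (hP : Bnd sep P) {σ : Type} [Finite σ] (f : MvPolynomial σ R)
    (h : P (aff R (MvPolynomial σ R ⧸ Ideal.span {f}))) : P (aff R (Localization.Away f)) := by
  have h1 : Has P (R := R) fun C _ _ (u : σ → C) => True ∧ aeval u f = 0 := by
    have h2 : Ideal.span {f} = Ideal.span (Set.range fun _ : Unit => f) := by
      rw [Set.range_const]
    rw [h2] at h
    refine ⟨Unit, fun _ => f, 1, fun C _ _ u => ?_, iso_alg hP.toUni (oneE fun _ : Unit => f) h⟩
    unfold Pts
    rw [map_one]
    exact ⟨fun h => ⟨fun _ => h.2, isUnit_one⟩, fun h => ⟨trivial, h.1 ()⟩⟩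
  have h3 := has_open hP (has_affine hP σ) f h1
  have hft : Algebra.FiniteType R (Localization.Away f) :=
    Algebra.FiniteType.trans (S := MvPolynomial σ R) inferInstance inferInstance
  refine iso_alg hP.toUni (locE f).symm (h3.piece hP (noG σ R) f fun C _ _ u => ?_)
  unfold Pts
  exact ⟨fun h => ⟨fun k => k.elim, h.2⟩, fun h => ⟨trivial, h.2⟩⟩

lemma graphW_of_hyp (hP : Bnd sep P) {V : Type} [Finite V] (G : SimpleGraph V)
    (w : G.edgeSet → Option R) (h : P (hypW G w)) : P (graphW G w) := loc_of_quot hP _ h

lemma graphS_of_hyp (hP : Bnd sep P) {V : Type} [Finite V] (G : SimpleGraph V)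
    (h : P (hypS R G)) : P (graphS R G) := loc_of_quot hP _ h

lemma smooth_graphW {k : Type} [CommRing k] {V : Type} [Finite V] (G : SimpleGraph V)
    (w : G.edgeSet → Option k) : Algebra.Smooth k (Localization.Away (kir G (wvar w))) := by
  have h1 : Algebra.Smooth k (MvPolynomial {e : G.edgeSet // w e = none} k) := {}
  have h2 : Algebra.Smooth (MvPolynomial {e : G.edgeSet // w e = none} k)
      (Localization.Away (kir G (wvar w))) := Algebra.Smooth.of_isLocalization_Away (kir G (wvar w))
  exact Algebra.Smooth.comp k (MvPolynomial {e : G.edgeSet // w e = none} k) _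

lemma smooth_graphS (k : Type) [CommRing k] {V : Type} [Finite V] (G : SimpleGraph V) :
    Algebra.Smooth k (Localization.Away (kir G (X : G.edgeSet → MvPolynomial G.edgeSet k))) := by
  have h1 : Algebra.Smooth k (MvPolynomial G.edgeSet k) := {}
  have h2 : Algebra.Smooth (MvPolynomial G.edgeSet k)
      (Localization.Away (kir G (X : G.edgeSet → MvPolynomial G.edgeSet k))) :=
    Algebra.Smooth.of_isLocalization_Away (kir G (X : G.edgeSet → MvPolynomial G.edgeSet k))
  exact Algebra.Smooth.comp k (MvPolynomial G.edgeSet k) _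

lemma ft_graphW {k : Type} [CommRing k] {V : Type} [Finite V] (G : SimpleGraph V)
    (w : G.edgeSet → Option k) (sep : Prop) : FT sep (graphW G w) := by
  have h1 : Algebra.FiniteType k (Localization.Away (kir G (wvar w))) :=
    Algebra.FiniteType.trans (S := MvPolynomial {e : G.edgeSet // w e = none} k)
      inferInstance inferInstance
  exact ft_aff sep

lemma ft_graphS (k : Type) [CommRing k] {V : Type} [Finite V] (G : SimpleGraph V) (sep : Prop) :
    FT sep (graphS k G) := by
  have h1 : Algebra.FiniteType k
      (Localization.Away (kir G (X : G.edgeSet → MvPolynomial G.edgeSet k))) :=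
    Algebra.FiniteType.trans (S := MvPolynomial G.edgeSet k) inferInstance inferInstance
  exact ft_aff sep

end Pool.Agent.H57.GH
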