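import Pool.Agent.H57.GH.Sym

/-!
# From symmetric matrices with a free diagonal to matrices with prescribed elements
-/

set_option autoImplicit false

open CategoryTheory AlgebraicGeometry MvPolynomial Pool.Agent.Y116.UV Pool.Agent.Z125.UN Matrix
  Pool.Agent.H57.ZP

namespace Pool.Agent.H57.GH

variable {R : Type} [CommRing R] {sep : Prop} {P : Sch R → Prop}

variable {K : Type} [Fintype K] [DecidableEq K]

/-- The prescribed elements of the symmetric matrix `(a, c; cᵀ, b)`: `a` is diagonal, with zeros at the
places in `J`, the elements of `c` are prescribed by `Z`, and `b` has zeros outside of `S`. -/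
def Yp (S : Set (Sym2 K)) [DecidablePred (· ∈ S)] (Z : K × K → Option R) (J : Finset K) :
    (K ⊕ K) × (K ⊕ K) → Option R := fun x =>
  match x with
  | (Sum.inl i, Sum.inl j) => if i = j ∧ i ∉ J then none else some 0
  | (Sum.inl i, Sum.inr j) => Z (i, j)
  | (Sum.inr j, Sum.inl i) => Z (i, j)
  | (Sum.inr j, Sum.inr l) => if s(j, l) ∈ S then none else some 0

variable {S : Set (Sym2 K)} [DecidablePred (· ∈ S)]

omit [Fintype K] in
lemma Yp_symm (Z : K × K → Option R) (J : Finset K) (x y : K ⊕ K) :
    Yp S Z J (x, y) = Yp S Z J (y, x) := by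
  rcases x with i | i
  · rcases y with j | j
    · change (if i = j ∧ i ∉ J then none else some 0) = if j = i ∧ j ∉ J then none else some 0
      by_cases h : i = j
      · subst h
        rfl
      · rw [if_neg (fun h' => h h'.1), if_neg (fun h' => h h'.1.symm)]
    · rfl
  · rcases y with j | j
    · rfl
    · change (if s(i, j) ∈ S then none else some 0) = if s(j, i) ∈ S then none else some 0
      rw [Sym2.eq_swap]

/-- row `i` is zero -/
def r0 (Z : K × K → Option R) (i : K) : K × K → Option R := fun x => if x.1 = i then some 0 else Z x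

omit [Fintype K] in
lemma Yp_dz (Z : K × K → Option R) (J : Finset K) (i : K) :
    dz (Yp S Z J) (Sum.inl i) = Yp S Z (insert i J) := by
  funext x
  obtain ⟨x, y⟩ := x
  unfold dz
  rcases x with x | x
  · rcases y with y | y
    · by_cases h : x = i ∧ y = i
      · rw [if_pos (by rw [h.1, h.2])]
        change _ = if x = y ∧ x ∉ insert i J then none else some 0
        rw [if_neg (by simp [h.1])]
      · rw [if_neg (by simpa using h)]
        change (if x = y ∧ x ∉ J then none else some 0) =
          if x = y ∧ x ∉ insert i J then none else some 0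
        by_cases hxy : x = y
        · subst hxy
          have hx : x ≠ i := fun h' => h ⟨h', h'⟩
          simp [hx]
        · rw [if_neg (fun h' => hxy h'.1), if_neg (fun h' => hxy h'.1)]
    · rw [if_neg (by simp)]
      rfl
  · rcases y with y | y
    · rw [if_neg (by simp)]
      rfl
    · rw [if_neg (by simp)]
      rfl

omit [Fintype K] in
lemma Yp_rz (Z : K × K → Option R) (J : Finset K) (i : K) :
    rz (Yp S Z J) (Sum.inl i) = Yp S (r0 Z i) J := by
  funext x
  obtain ⟨x, y⟩ := x
  unfold rz
  rcases x with x | x
  · rcases y with y | y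
    · by_cases hxy : x = y
      · subst hxy
        rw [if_neg (by simp)]
        rfl
      · have h1 : Yp S Z J (Sum.inl x, Sum.inl y) = some 0 := if_neg fun h' => hxy h'.1
        have h2 : Yp S (r0 Z i) J (Sum.inl x, Sum.inl y) = some 0 := if_neg fun h' => hxy h'.1
        rw [h1, h2, ite_self]
    · change (if (Sum.inl x = (Sum.inl i : K ⊕ K) ∧ Sum.inr y ≠ (Sum.inl i : K ⊕ K)) ∨
        (Sum.inl x ≠ (Sum.inl i : K ⊕ K) ∧ Sum.inr y = (Sum.inl i : K ⊕ K)) then some 0 else
          Z (x, y)) = if x = i then some 0 else Z (x, y)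
      by_cases h : x = i
      · rw [if_pos (by simp [h]), if_pos h]
      · rw [if_neg (by simp [h]), if_neg h]
  · rcases y with y | y
    · change (if (Sum.inr x = (Sum.inl i : K ⊕ K) ∧ Sum.inl y ≠ (Sum.inl i : K ⊕ K)) ∨
        (Sum.inr x ≠ (Sum.inl i : K ⊕ K) ∧ Sum.inl y = (Sum.inl i : K ⊕ K)) then some 0 else
          Z (y, x)) = if y = i then some 0 else Z (y, x)
      by_cases h : y = i
      · rw [if_pos (by simp [h]), if_pos h]
      · rw [if_neg (by simp [h]), if_neg h]
    · rw [if_neg (by simp)]
      rfl

/-- The set `S` contains all pairs of columns which have elements in the same row. -/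
def Clo (S : Set (Sym2 K)) (Z : K × K → Option R) : Prop :=
  ∀ i x y, Z (i, x) ≠ some 0 → Z (i, y) ≠ some 0 → s(x, y) ∈ S

/-- **Zeros on the diagonal.** -/
theorem diag_zero (hP : Bnd sep P) (J : Finset K) : ∀ Z : K × K → Option R, Clo S Z →
    (∀ Z' : K × K → Option R, (∀ x, Z' x = Z x ∨ Z' x = some 0) → Has P (SM (Yp S Z' ∅))) →
    Has P (SM (Yp S Z J)) := by
  induction J using Finset.induction_on with
  | empty => exact fun Z _ h => h Z fun x => Or.inl rfl
  | insert i J hi ih =>
    intro Z hZ h
    rw [← Yp_dz]
    refine step_zero hP (Yp S Z J) (Sum.inl i) (Yp_symm Z J) ?_ ?_ (ih Z hZ h) ?_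
    · exact if_pos ⟨rfl, hi⟩
    · intro x y hx hy h1 h2
      rcases x with x | x
      · refine absurd ?_ h1
        have h3 : i ≠ x := fun h' => hx (by rw [h'])
        exact if_neg fun h' => h3 h'.1
      · rcases y with y | y
        · refine absurd ?_ h2
          have h3 : i ≠ y := fun h' => hy (by rw [h'])
          exact if_neg fun h' => h3 h'.1
        · exact if_pos (hZ i x y h1 h2)
    · rw [Yp_rz]
      refine ih _ (fun l x y h1 h2 => ?_) fun Z' hZ' => h Z' fun x => ?_
      · by_cases hl : l = i
        · exact absurd (if_pos hl) h1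
        · refine hZ l x y (fun h3 => h1 ?_) fun h3 => h2 ?_
          · exact (if_neg hl).trans h3
          · exact (if_neg hl).trans h3
      · rcases hZ' x with h1 | h1
        · by_cases hx : x.1 = i
          · exact Or.inr (h1.trans (if_pos hx))
          · exact Or.inl (h1.trans (if_neg hx))
        · exact Or.inr h1

/-- the matrix `(0, c; cᵀ, b)` -/
noncomputable def zp (S : Set (Sym2 K)) [DecidablePred (· ∈ S)] (x : (K ⊕ K) × (K ⊕ K)) :
    MvPolynomial ((K × K) ⊕ {e : Sym2 K // e ∈ S}) R :=
  match x with
  | (Sum.inl _, Sum.inl _) => 0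
  | (Sum.inl i, Sum.inr j) => X (Sum.inl (i, j))
  | (Sum.inr j, Sum.inl i) => X (Sum.inl (i, j))
  | (Sum.inr j, Sum.inr l) => if h : s(j, l) ∈ S then X (Sum.inr ⟨s(j, l), h⟩) else 0

/-- **The invertible matrices with prescribed elements.** -/
theorem glk_of_sym (hP : Bnd sep P) (Z : K × K → Option R) (hZ : Clo S Z)
    (h : ∀ Z' : K × K → Option R, (∀ x, Z' x = Z x ∨ Z' x = some 0) → Has P (SM (Yp S Z' ∅))) :
    Has P (GLk K Z) := by
  have h1 := diag_zero hP Finset.univ Z hZ h
  have hbb : ∀ (C : Type) [CommRing C] [Algebra R C]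
      (u : (K × K) ⊕ {e : Sym2 K // e ∈ S} → C) (x y : K),
      aeval u (if h : s(x, y) ∈ S then X (Sum.inr ⟨s(x, y), h⟩) else 0 :
        MvPolynomial ((K × K) ⊕ {e : Sym2 K // e ∈ S}) R) =
      if h : s(x, y) ∈ S then u (Sum.inr ⟨s(x, y), h⟩) else 0 := by
    intro C _ _ u x y
    split_ifs
    · exact aeval_X _ _
    · exact map_zero _
  refine of_space hP {e : Sym2 K // e ∈ S} (rep_GLk K Z)
    (h1.iso hP ((rep_GLk K Z).reindex Sum.inl) (zp S) ?_ ?_ ?_)
  · intro C _ _ u hu
    refine ⟨?_, ?_, ?_⟩
    · rintro ⟨x, y⟩ c hc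
      rcases x with x | x
      · rcases y with y | y
        · change (if x = y ∧ x ∉ Finset.univ then none else some 0) = some c at hc
          rw [if_neg (fun h' => h'.2 (Finset.mem_univ x))] at hc
          change aeval u (0 : MvPolynomial ((K × K) ⊕ {e : Sym2 K // e ∈ S}) R) = _
          rw [map_zero, ← Option.some_injective _ hc, map_zero]
        · change aeval u (X (Sum.inl (x, y)) :
            MvPolynomial ((K × K) ⊕ {e : Sym2 K // e ∈ S}) R) = _
          rw [aeval_X]
          exact hu.1 (x, y) c hc
      · rcases y with y | y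
        · change aeval u (X (Sum.inl (y, x)) :
            MvPolynomial ((K × K) ⊕ {e : Sym2 K // e ∈ S}) R) = _
          rw [aeval_X]
          exact hu.1 (y, x) c hc
        · change (if s(x, y) ∈ S then none else some 0) = some c at hc
          refine (hbb C u x y).trans ?_
          by_cases hxy : s(x, y) ∈ S
          · rw [if_pos hxy] at hc
            exact absurd hc.symm (Option.some_ne_none c)
          · rw [if_neg hxy] at hc
            rw [dif_neg hxy, ← Option.some_injective _ hc, map_zero]
    · intro x y
      rcases x with x | x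
      · rcases y with y | y
        · rfl
        · rfl
      · rcases y with y | y
        · rfl
        · refine (hbb C u x y).trans (Eq.trans ?_ (hbb C u y x).symm)
          by_cases hxy : s(x, y) ∈ S
          · have hyx : s(y, x) ∈ S := by rwa [Sym2.eq_swap]
            rw [dif_pos hxy, dif_pos hyx]
            congr 3
            exact Sym2.eq_swap
          · have hyx : s(y, x) ∉ S := by rwa [Sym2.eq_swap]
            rw [dif_neg hxy, dif_neg hyx]
    · have h2 : (fun a b => aeval u (zp S (a, b) :
            MvPolynomial ((K × K) ⊕ {e : Sym2 K // e ∈ S}) R)) =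
          fromBlocks 0 (Matrix.of fun i j => u (Sum.inl (i, j)))
            (Matrix.of fun i j => u (Sum.inl (i, j)))ᵀ
            (Matrix.of fun i j => if h : s(i, j) ∈ S then u (Sum.inr ⟨s(i, j), h⟩) else 0) := by
        funext x y
        rcases x with x | x
        · rcases y with y | y
          · exact map_zero _
          · exact aeval_X _ _
        · rcases y with y | y
          · exact aeval_X _ _
          · exact hbb C u x y
      change IsUnit (Matrix.det fun a b => aeval u (zp S (a, b) :
        MvPolynomial ((K × K) ⊕ {e : Sym2 K // e ∈ S}) R))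
      rw [h2, isUnit_block]
      exact hu.2
  · intro C _ _ u hu
    obtain ⟨hu1, hu2, hu3⟩ := hu
    let b : Sym2 K → C := Sym2.lift ⟨fun i j => u (Sum.inr i, Sum.inr j), fun i j => hu2 _ _⟩
    let c : K × K → C := fun x => u (Sum.inl x.1, Sum.inr x.2)
    have hz : ∀ x y : K, u (Sum.inl x, Sum.inl y) = 0 := by
      intro x y
      have := hu1 (Sum.inl x, Sum.inl y) 0 (if_neg fun h' => h'.2 (Finset.mem_univ x))
      rwa [map_zero] at this
    have hb : ∀ x y : K, (if h : s(x, y) ∈ S then
        (Sum.elim c fun e : {e : Sym2 K // e ∈ S} => b e.1) (Sum.inr ⟨s(x, y), h⟩) else 0) =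
        u (Sum.inr x, Sum.inr y) := by
      intro x y
      by_cases hxy : s(x, y) ∈ S
      · rw [dif_pos hxy]
        rfl
      · rw [dif_neg hxy]
        have := hu1 (Sum.inr x, Sum.inr y) 0 (if_neg hxy)
        rw [this, map_zero]
    have hp : ∀ x, aeval (Sum.elim c fun e : {e : Sym2 K // e ∈ S} => b e.1) (zp S x :
        MvPolynomial ((K × K) ⊕ {e : Sym2 K // e ∈ S}) R) = u x := by
      rintro ⟨x, y⟩
      rcases x with x | x
      · rcases y with y | y
        · exact (map_zero _).trans (hz x y).symm
        · exact aeval_X _ _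
      · rcases y with y | y
        · exact (aeval_X _ _).trans (hu2 _ _)
        · exact (hbb C _ x y).trans (hb x y)
    refine ⟨_, ⟨?_, ?_⟩, hp⟩
    · intro x d hd
      exact hu1 (Sum.inl x.1, Sum.inr x.2) d hd
    · have h2 : (fun a b => u (a, b)) = fromBlocks 0 (Matrix.of fun i j => c (i, j))
          (Matrix.of fun i j => c (i, j))ᵀ (Matrix.of fun i j => u (Sum.inr i, Sum.inr j)) := by
        funext x y
        rcases x with x | x
        · rcases y with y | y
          · exact hz x y
          · rfl
        · rcases y with y | y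
          · exact hu2 _ _
          · rfl
      rw [h2, isUnit_block] at hu3
      exact hu3
  · intro C _ _ u u' _ _ h3
    funext x
    rcases x with ⟨x, y⟩ | ⟨e, he⟩
    · have := h3 (Sum.inl x, Sum.inr y)
      simpa only [zp, aeval_X] using this
    · induction e using Sym2.ind with
      | _ x y =>
        have h4 : aeval u _ = aeval u' _ := h3 (Sum.inr x, Sum.inr y)
        have h5 := (hbb C u x y).symm.trans (h4.trans (hbb C u' x y))
        rwa [dif_pos he, dif_pos he] at h5

end Pool.Agent.H57.GH
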