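import Pool.Agent.H57.GH.Kir
import Pool.Agent.H57.GH.Ind

/-!
# Symmetric matrices as weighted graphs
-/

set_option autoImplicit false

open CategoryTheory AlgebraicGeometry MvPolynomial Pool.Agent.Y116.UV Pool.Agent.Z125.UN Matrix
  Pool.Agent.H57.ZP

namespace Pool.Agent.H57.GH

variable {R : Type} [CommRing R] {sep : Prop} {P : Sch R → Prop}

section weights

/-- the values of the weights -/
noncomputable def wval {E : Type} (w : E → Option R) {C : Type} [CommRing C] [Algebra R C]
    (u : {e : E // w e = none} → C) (e : E) : C :=
  if h : w e = none then u ⟨e, h⟩ else algebraMap R C ((w e).getD 0)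

lemma aeval_wvar {E : Type} (w : E → Option R) {C : Type} [CommRing C] [Algebra R C]
    (u : {e : E // w e = none} → C) (e : E) : aeval u (wvar w e) = wval w u e := by
  unfold wvar wval
  split_ifs
  · exact aeval_X _ _
  · exact aeval_C _ _

lemma wval_none {E : Type} (w : E → Option R) {C : Type} [CommRing C] [Algebra R C]
    (u : {e : E // w e = none} → C) {e : E} (h : w e = none) : wval w u e = u ⟨e, h⟩ := dif_pos h

lemma wval_some {E : Type} (w : E → Option R) {C : Type} [CommRing C] [Algebra R C]
    (u : {e : E // w e = none} → C) {e : E} {c : R} (h : w e = some c) :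
    wval w u e = algebraMap R C c := by
  unfold wval
  rw [dif_neg (by rw [h]; exact Option.some_ne_none c), h]
  rfl

variable {V : Type} [Finite V]

lemma has_graphW (hP : Bnd sep P) (G : SimpleGraph V) (w : G.edgeSet → Option R)
    (h : P (graphW G w)) : Has P (R := R) fun C _ _ (u : {e : G.edgeSet // w e = none} → C) =>
      IsUnit (kir G (wval w u)) := by
  have hft : Algebra.FiniteType R (Localization.Away (kir G (wvar w))) :=
    Algebra.FiniteType.trans (S := MvPolynomial {e : G.edgeSet // w e = none} R)
      inferInstance inferInstance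
  have h1 : P (aff R (Pc (noG {e : G.edgeSet // w e = none} R) (kir G (wvar w)))) :=
    iso_alg hP.toUni (locE _) h
  refine ⟨Empty, noG _ R, kir G (wvar w), fun C _ _ u => ?_, h1⟩
  have h2 : aeval u (kir G (wvar w)) = kir G (wval w u) := by
    have h3 := map_kir G (wvar w)
      ((aeval u : MvPolynomial {e : G.edgeSet // w e = none} R →ₐ[R] C) : _ →+* C)
    refine h3.trans ?_
    congr 1
    funext e
    exact aeval_wvar w u e
  unfold Pts
  rw [h2]
  exact ⟨fun h => ⟨fun k => k.elim, h⟩, fun h => h.2⟩

lemma has_graphS (hP : Bnd sep P) (G : SimpleGraph V) (h : P (graphS R G)) :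
    Has P (R := R) fun C _ _ (u : G.edgeSet → C) => IsUnit (kir G u) := by
  have hft : Algebra.FiniteType R
      (Localization.Away (kir G (X : G.edgeSet → MvPolynomial G.edgeSet R))) :=
    Algebra.FiniteType.trans (S := MvPolynomial G.edgeSet R) inferInstance inferInstance
  have h1 : P (aff R (Pc (noG G.edgeSet R)
      (kir G (X : G.edgeSet → MvPolynomial G.edgeSet R)))) :=
    iso_alg hP.toUni (locE _) h
  refine ⟨Empty, noG _ R, kir G (X : G.edgeSet → MvPolynomial G.edgeSet R),
    fun C _ _ u => ?_, h1⟩
  have h2 : aeval u (kir G (X : G.edgeSet → MvPolynomial G.edgeSet R)) = kir G u := by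
    have h3 := map_kir G (X : G.edgeSet → MvPolynomial G.edgeSet R)
      ((aeval u : MvPolynomial G.edgeSet R →ₐ[R] C) : _ →+* C)
    refine h3.trans ?_
    congr 1
    funext e
    exact aeval_X _ _
  unfold Pts
  rw [h2]
  exact ⟨fun h => ⟨fun k => k.elim, h⟩, fun h => h.2⟩

lemma has_graphS' (hP : Bnd sep P) (G : SimpleGraph V) (w : G.edgeSet → Option R)
    (hw : ∀ e, w e = none) (h : P (graphS R G)) :
    Has P (R := R) fun C _ _ (u : {e : G.edgeSet // w e = none} → C) =>
      IsUnit (kir G (wval w u)) := by
  have h1 := has_graphS hP G h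
  have h2 : ∀ (C : Type) [CommRing C] [Algebra R C] (u : {e : G.edgeSet // w e = none} → C),
      wval w u = fun e => u ⟨e, hw e⟩ := fun C _ _ u => funext fun e => wval_none w u (hw e)
  refine h1.iso hP ((h1.rep.reindex fun e => (⟨e, hw e⟩ : {e : G.edgeSet // w e = none})).congr
    fun C _ _ u => by rw [h2]) (fun e => X ⟨e, hw e⟩) ?_ ?_ ?_
  · intro C _ _ u hu
    rw [h2] at hu
    simp only [aeval_X]
    exact hu
  · intro C _ _ u hu
    refine ⟨fun e => u e.1, ?_, fun e => by rw [aeval_X]⟩
    rw [h2]
    exact hu
  · intro C _ _ u u' _ _ h3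
    funext e
    simpa only [aeval_X] using h3 e.1

end weights

section graph

variable {W : Type} [Fintype W] [DecidableEq W]

/-- The graph of a symmetric pattern `Y`, with one more vertex which is joined to all other vertices. -/
def GY (Y : W × W → Option R) (hs : ∀ x y, Y (x, y) = Y (y, x)) : SimpleGraph (Option W) where
  Adj p q := p ≠ q ∧ ∀ x y, p = some x → q = some y → Y (x, y) ≠ some 0
  symm := ⟨fun p q h => ⟨h.1.symm, fun x y hx hy => by rw [hs]; exact h.2 y x hy hx⟩⟩
  loopless := ⟨fun p h => h.1 rfl⟩

/-- the prescribed weights -/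
def wS (Y : W × W → Option R) (hs : ∀ x y, Y (x, y) = Y (y, x)) : Sym2 (Option W) → Option R :=
  Sym2.lift ⟨fun p q => match p, q with
    | some x, some y => (Y (x, y)).map fun c => -c
    | _, _ => none, by
    intro p q
    rcases p with - | x
    · rcases q with - | y
      · rfl
      · rfl
    · rcases q with - | y
      · rfl
      · change (Y (x, y)).map _ = (Y (y, x)).map _
        rw [hs]⟩

/-- the weights of a symmetric matrix -/
def yM {C : Type} [CommRing C] (M : W × W → C) (hM : ∀ x y, M (x, y) = M (y, x)) :
    Sym2 (Option W) → C :=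
  Sym2.lift ⟨fun p q => match p, q with
    | none, none => 0
    | none, some x => ∑ y, M (x, y)
    | some x, none => ∑ y, M (x, y)
    | some x, some y => if x = y then 0 else - M (x, y), by
    intro p q
    rcases p with - | x
    · rcases q with - | y
      · rfl
      · rfl
    · rcases q with - | y
      · rfl
      · change (if x = y then 0 else - M (x, y)) = if y = x then 0 else - M (y, x)
        rw [hM]
        by_cases h : x = y
        · rw [if_pos h, if_pos h.symm]
        · rw [if_neg h, if_neg fun h' => h h'.symm]⟩

/-- the symmetric matrix of the weights `y` -/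
lemma lap_yM {C : Type} [CommRing C] (M : W × W → C) (hM : ∀ x y, M (x, y) = M (y, x)) (x y : W) :
    lap (yM M hM) (some x) (some y) = M (x, y) := by
  by_cases h : x = y
  · subst h
    rw [lap_diag]
    · rw [Fintype.sum_option]
      change (∑ y, M (x, y)) + ∑ y, (if x = y then 0 else - M (x, y)) = _
      rw [← Finset.sum_add_distrib]
      have h1 : ∀ y, M (x, y) + (if x = y then 0 else - M (x, y)) =
          if x = y then M (x, x) else 0 := by
        intro y
        by_cases h : x = y
        · rw [if_pos h, if_pos h, add_zero, h]
        · rw [if_neg h, if_neg h, add_neg_cancel]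
      rw [Finset.sum_congr rfl fun y _ => h1 y]
      simp
    · intro e he
      induction e using Sym2.ind with
      | _ p q =>
        rw [Sym2.mk_isDiag_iff] at he
        subst he
        rcases p with - | x
        · rfl
        · exact if_pos rfl
  · rw [lap_off _ (by simpa using h)]
    change -(if x = y then 0 else - M (x, y)) = _
    rw [if_neg h, neg_neg]

lemma GY_none (Y : W × W → Option R) (hs : ∀ x y, Y (x, y) = Y (y, x)) (x : W) :
    s(some x, none) ∈ (GY Y hs).edgeSet := by
  rw [SimpleGraph.mem_edgeSet]
  exact ⟨Option.some_ne_none x, fun _ _ _ h => absurd h.symm (Option.some_ne_none _)⟩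

lemma GY_some (Y : W × W → Option R) (hs : ∀ x y, Y (x, y) = Y (y, x)) {x y : W} :
    s(some x, some y) ∈ (GY Y hs).edgeSet ↔ x ≠ y ∧ Y (x, y) ≠ some 0 := by
  rw [SimpleGraph.mem_edgeSet]
  constructor
  · intro h
    exact ⟨fun h' => h.1 (by rw [h']), h.2 x y rfl rfl⟩
  · intro h
    refine ⟨fun h' => h.1 (Option.some_injective _ h'), fun x' y' hx hy => ?_⟩
    rw [← Option.some_injective _ hx, ← Option.some_injective _ hy]
    exact h.2

/-- **Symmetric matrices with a free diagonal from weighted graphs.** -/
lemma sm_of_graph (hP : Bnd sep P) (Y : W × W → Option R) (hs : ∀ x y, Y (x, y) = Y (y, x))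
    (hd : ∀ x, Y (x, x) = none)
    (h : Has P (R := R) fun C _ _
      (u : {e : (GY Y hs).edgeSet // (fun e : (GY Y hs).edgeSet => wS Y hs e.1) e = none} → C) =>
      IsUnit (kir (GY Y hs) (wval (fun e : (GY Y hs).edgeSet => wS Y hs e.1) u))) :
    Has P (SM Y) := by
  set G := GY Y hs with hG
  set w : G.edgeSet → Option R := fun e => wS Y hs e.1 with hw
  -- weights of the edges
  have hoff : ∀ (C : Type) [CommRing C] [Algebra R C] (u : {e : G.edgeSet // w e = none} → C)
      (x y : W) (c : R), x ≠ y → Y (x, y) = some c →
      ez G (wval w u) s(some x, some y) = - algebraMap R C c := by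
    intro C _ _ u x y c hxy hc
    by_cases h0 : c = 0
    · rw [ez_nmem, h0, map_zero, neg_zero]
      intro h1
      exact ((GY_some Y hs).mp h1).2 (by rw [hc, h0])
    · have h1 : s(some x, some y) ∈ G.edgeSet := (GY_some Y hs).mpr
        ⟨hxy, fun h2 => h0 (Option.some_injective _ (hc.symm.trans h2))⟩
      rw [ez_mem _ _ h1, ← map_neg]
      refine wval_some w u ?_
      change (Y (x, y)).map (fun c => -c) = _
      rw [hc]
      rfl
  let p : W × W → MvPolynomial {e : G.edgeSet // w e = none} R := fun x =>
    lap (ez G (wvar w)) (some x.1) (some x.2)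
  have hp : ∀ (C : Type) [CommRing C] [Algebra R C] (u : {e : G.edgeSet // w e = none} → C)
      (x : W × W), aeval u (p x) = lap (ez G (wval w u)) (some x.1) (some x.2) := by
    intro C _ _ u x
    have h1 := map_lap (ez G (wvar w))
      ((aeval u : MvPolynomial {e : G.edgeSet // w e = none} R →ₐ[R] C) : _ →+* C)
      (some x.1) (some x.2)
    refine h1.trans ?_
    congr 1
    funext e
    refine (map_ez G (wvar w) _ e).trans ?_
    congr 1
    funext e
    exact aeval_wvar w u e
  refine Has.iso' hP (rep_SM Y) h p ?_ ?_ ?_
  · intro C _ _ u hu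
    simp only [hp]
    refine ⟨?_, fun x y => lap_symm _ _ _, ?_⟩
    · rintro ⟨x, y⟩ c hc
      have hxy : x ≠ y := by
        rintro rfl
        rw [hd] at hc
        exact Option.some_ne_none c hc.symm
      change lap _ (some x) (some y) = _
      rw [lap_off _ (by simpa using hxy), hoff C u x y c hxy hc, neg_neg]
    · change IsUnit (Matrix.det fun a b => lap (ez G (wval w u)) (some a) (some b))
      rw [← kir_option]
      exact hu
  · intro C _ _ M hM
    obtain ⟨hM1, hM2, hM3⟩ := hM
    let u : {e : G.edgeSet // w e = none} → C := fun e => yM M hM2 e.1.1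
    have hez : ez G (wval w u) = yM M hM2 := by
      funext e
      by_cases he : e ∈ G.edgeSet
      · rw [ez_mem _ _ he]
        cases hc : w ⟨e, he⟩ with
        | none => exact wval_none w u hc
        | some c =>
          rw [wval_some w u hc]
          induction e using Sym2.ind with
          | _ p q =>
            rcases p with - | x
            · exact absurd hc.symm (Option.some_ne_none c)
            · rcases q with - | y
              · exact absurd hc.symm (Option.some_ne_none c)
              · have h1 := (GY_some Y hs).mp he
                change (Y (x, y)).map (fun c => -c) = some c at hc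
                obtain ⟨c', hc1, hc2⟩ := Option.map_eq_some_iff.mp hc
                change _ = if x = y then 0 else - M (x, y)
                rw [if_neg h1.1, hM1 (x, y) c' hc1, ← map_neg, hc2]
      · rw [ez_nmem _ _ he]
        induction e using Sym2.ind with
        | _ p q =>
          rcases p with - | x
          · rcases q with - | y
            · rfl
            · refine absurd ?_ he
              rw [Sym2.eq_swap]
              exact GY_none Y hs y
          · rcases q with - | y
            · exact absurd (GY_none Y hs x) he
            · change 0 = if x = y then 0 else - M (x, y)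
              by_cases hxy : x = y
              · rw [if_pos hxy]
              · have h2 : Y (x, y) = some 0 := by
                  by_contra h3
                  exact he ((GY_some Y hs).mpr ⟨hxy, h3⟩)
                rw [if_neg hxy, hM1 (x, y) 0 h2, map_zero, neg_zero]
    refine ⟨u, ?_, fun x => ?_⟩
    · change IsUnit (kir G (wval w u))
      rw [kir_option, hez]
      have h1 : (fun a b => lap (yM M hM2) (some a) (some b)) = fun a b => M (a, b) := by
        funext a b
        exact lap_yM M hM2 a b
      rw [h1]
      exact hM3
    · rw [hp, hez]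
      exact lap_yM M hM2 x.1 x.2
  · intro C _ _ u u' _ _ h3
    have h4 : ∀ x y, lap (ez G (wval w u)) (some x) (some y) =
        lap (ez G (wval w u')) (some x) (some y) := by
      intro x y
      have := h3 (x, y)
      rwa [hp, hp] at this
    have h5 : ∀ x y : W, ez G (wval w u) s(some x, some y) = ez G (wval w u') s(some x, some y) := by
      intro x y
      by_cases hxy : x = y
      · subst hxy
        rw [ez_diag _ _ _ (Sym2.mk_isDiag_iff.mpr rfl), ez_diag _ _ _ (Sym2.mk_isDiag_iff.mpr rfl)]
      · have h6 := h4 x y
        rw [lap_off _ (by simpa using hxy), lap_off _ (by simpa using hxy)] at h6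
        exact neg_injective h6
    have h6 : ∀ x : W, ez G (wval w u) s(some x, none) = ez G (wval w u') s(some x, none) := by
      intro x
      have h7 := h4 x x
      rw [lap_diag _ (ez_diag G _), lap_diag _ (ez_diag G _), Fintype.sum_option,
        Fintype.sum_option, Finset.sum_congr rfl fun y _ => h5 x y] at h7
      exact add_right_cancel h7
    funext e
    have h7 : ∀ (u : {e : G.edgeSet // w e = none} → C), u e = ez G (wval w u) e.1.1 := by
      intro u
      rw [ez_mem _ _ e.1.2]
      exact (wval_none w u e.2).symm
    rw [h7 u, h7 u']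
    obtain ⟨⟨e, he⟩, he2⟩ := e
    induction e using Sym2.ind with
    | _ p q =>
      rcases p with - | x
      · rcases q with - | y
        · rw [ez_diag _ _ _ (Sym2.mk_isDiag_iff.mpr rfl),
            ez_diag _ _ _ (Sym2.mk_isDiag_iff.mpr rfl)]
        · have := h6 y
          rwa [Sym2.eq_swap] at this
      · rcases q with - | y
        · exact h6 x
        · exact h5 x y

end graph

end Pool.Agent.H57.GH
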