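import Pool.Agent.H89.L.Y116_UV_Defs

/-!
# Graph hypersurfaces: definitions
-/

set_option autoImplicit false

open CategoryTheory AlgebraicGeometry MvPolynomial Pool.Agent.Y116.UV

namespace Pool.Agent.H57.GH

/-- The sets of the edges of the spanning trees of the graph `G`. -/
def SpTrees {V : Type} (G : SimpleGraph V) : Set (Finset G.edgeSet) :=
  {T | (SimpleGraph.fromEdgeSet {e : Sym2 V | ∃ h : e ∈ G.edgeSet, (⟨e, h⟩ : G.edgeSet) ∈ T}).IsTree}

/-- The value of the Kirchhoff polynomial of the finite graph `G`: the sum over the spanning trees `T` of
`G` of the products of the elements `x e` for the edges `e` of `T`. -/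
noncomputable def kir {V A : Type} [CommRing A] (G : SimpleGraph V) (x : G.edgeSet → A) : A :=
  ∑ᶠ T ∈ SpTrees G, ∏ e ∈ T, x e

/-- The complement of the graph hypersurface of `G`: the principal open subscheme of the affine space
with one coordinate for each edge of `G` where the Kirchhoff polynomial of `G` is invertible. -/
noncomputable def graphS (k : Type) [CommRing k] {V : Type} (G : SimpleGraph V) : Sch k :=
  aff k (Localization.Away (kir G (X : G.edgeSet → MvPolynomial G.edgeSet k)))

/-- The graph hypersurface of `G`: the zero scheme of the Kirchhoff polynomial in the affine space with one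
coordinate for each edge of `G`. -/
noncomputable def hypS (k : Type) [CommRing k] {V : Type} (G : SimpleGraph V) : Sch k :=
  aff k (MvPolynomial G.edgeSet k ⧸
    Ideal.span {kir G (X : G.edgeSet → MvPolynomial G.edgeSet k)})

/-- For a partial function `w` on the set `E` with values in `k`: the values of `w`, and variables where
`w` has no value. -/
noncomputable def wvar {k : Type} [CommRing k] {E : Type} (w : E → Option k) (e : E) :
    MvPolynomial {e : E // w e = none} k :=
  if h : w e = none then X ⟨e, h⟩ else C ((w e).getD 0)

/-- The complement of the graph hypersurface of `G` with the weights `w`: the weights of some of the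
edges are prescribed elements of `k`, and the other edges have variable weights. -/
noncomputable def graphW {k : Type} [CommRing k] {V : Type} (G : SimpleGraph V)
    (w : G.edgeSet → Option k) : Sch k :=
  aff k (Localization.Away (kir G (wvar w)))

/-- The graph hypersurface of `G` with the weights `w`. -/
noncomputable def hypW {k : Type} [CommRing k] {V : Type} (G : SimpleGraph V)
    (w : G.edgeSet → Option k) : Sch k :=
  aff k (MvPolynomial {e : G.edgeSet // w e = none} k ⧸ Ideal.span {kir G (wvar w)})

/-- All vertices of the graph `G` with at most one exception have degree at most ten. -/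
def OneLarge {V : Type} (G : SimpleGraph V) : Prop :=
  ∃ r : V, ∀ v, v ≠ r → (G.neighborSet v).ncard ≤ 10

end Pool.Agent.H57.GH
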