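import Pool.Agent.H57.GH.Tree
import Pool.Agent.H57.GH.Defs

/-!
# Kirchhoff polynomials as determinants
-/

set_option autoImplicit false

open MvPolynomial Matrix

namespace Pool.Agent.H57.GH

open Classical in
/-- extension by zero -/
noncomputable def ez {V A : Type} [CommRing A] (G : SimpleGraph V) (x : G.edgeSet → A) (e : Sym2 V) : A :=
  if h : e ∈ G.edgeSet then x ⟨e, h⟩ else 0

section

variable {V A : Type} [CommRing A] (G : SimpleGraph V) (x : G.edgeSet → A)

lemma ez_mem {e : Sym2 V} (h : e ∈ G.edgeSet) : ez G x e = x ⟨e, h⟩ := dif_pos h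

lemma ez_nmem {e : Sym2 V} (h : e ∉ G.edgeSet) : ez G x e = 0 := dif_neg h

lemma ez_diag (e : Sym2 V) (h : e.IsDiag) : ez G x e = 0 :=
  ez_nmem G x fun h' => G.not_isDiag_of_mem_edgeSet h' h

lemma map_ez {B : Type} [CommRing B] (f : A →+* B) (e : Sym2 V) :
    f (ez G x e) = ez G (fun e => f (x e)) e := by
  by_cases h : e ∈ G.edgeSet
  · rw [ez_mem G _ h, ez_mem G _ h]
  · rw [ez_nmem G _ h, ez_nmem G _ h, map_zero]

lemma map_kir [Finite V] {B : Type} [CommRing B] (f : A →+* B) :
    f (kir G x) = kir G fun e => f (x e) := by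
  have hf : (SpTrees G).Finite := Set.toFinite _
  unfold kir
  rw [finsum_mem_eq_finite_toFinset_sum _ hf, finsum_mem_eq_finite_toFinset_sum _ hf, map_sum]
  exact Finset.sum_congr rfl fun T _ => map_prod f _ _

lemma kir_eq_tau [Fintype V] [DecidableEq V] : kir G x = tau (ez G x) := by
  classical
  have hf : (SpTrees G).Finite := Set.toFinite _
  unfold kir tau
  rw [finsum_mem_eq_finite_toFinset_sum _ hf]
  have hset : ∀ T : Finset G.edgeSet, {e : Sym2 V | ∃ h : e ∈ G.edgeSet, (⟨e, h⟩ : G.edgeSet) ∈ T} =
      ((T.map (Function.Embedding.subtype _) : Finset (Sym2 V)) : Set (Sym2 V)) := by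
    intro T
    ext e
    constructor
    · rintro ⟨h, hT⟩
      exact Finset.mem_coe.mpr (Finset.mem_map.mpr ⟨⟨e, h⟩, hT, rfl⟩)
    · intro h
      obtain ⟨a, ha, rfl⟩ := Finset.mem_map.mp (Finset.mem_coe.mp h)
      exact ⟨a.2, ha⟩
  refine Finset.sum_of_injOn (fun T => T.map (Function.Embedding.subtype _)) ?_ ?_ ?_ ?_
  · exact fun T _ T' _ h => Finset.map_injective _ h
  · intro T hT
    have h1 : T ∈ SpTrees G := by simpa using hT
    have h2 := h1
    unfold SpTrees at h2
    rw [Set.mem_setOf_eq, hset] at h2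
    exact Finset.mem_coe.mpr (Finset.mem_filter.mpr ⟨Finset.mem_univ _, h2⟩)
  · intro T hT hn
    have h2 := (Finset.mem_filter.mp hT).2
    by_contra h0
    apply hn
    have h3 : ∀ e ∈ T, e ∈ G.edgeSet := by
      intro e he
      by_contra h4
      exact h0 (Finset.prod_eq_zero he (ez_nmem G x h4))
    have h5 : (T.subtype (· ∈ G.edgeSet)).map (Function.Embedding.subtype _) = T :=
      Finset.subtype_map_of_mem h3
    refine ⟨T.subtype (· ∈ G.edgeSet), ?_, h5⟩
    have h6 : T.subtype (· ∈ G.edgeSet) ∈ SpTrees G := by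
      unfold SpTrees
      rw [Set.mem_setOf_eq, hset, h5]
      exact h2
    simpa using h6
  · intro T _
    rw [Finset.prod_map]
    exact Finset.prod_congr rfl fun e _ => (ez_mem G x e.2).symm

end

section opt

variable {W A : Type} [Fintype W] [DecidableEq W] [CommRing A]

/-- removing one row and one column -/
lemma det_updateRow_none (M : Matrix (Option W) (Option W) A) :
    (M.updateRow none (Pi.single none 1)).det = Matrix.det fun a b => M (some a) (some b) := by
  rw [← det_submatrix_equiv_self (Equiv.optionEquivSumPUnit.{0} W).symm]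
  have h1 : (M.updateRow none (Pi.single none 1)).submatrix (Equiv.optionEquivSumPUnit.{0} W).symm
      (Equiv.optionEquivSumPUnit.{0} W).symm =
      fromBlocks (Matrix.of fun a b => M (some a) (some b)) (Matrix.of fun a _ => M (some a) none) 0
        (1 : Matrix PUnit.{1} PUnit.{1} A) := by
    ext a b
    rcases a with a | a
    · rcases b with b | b
      · simp [Matrix.updateRow_apply]
      · simp [Matrix.updateRow_apply]
    · rcases b with b | b
      · simp [Matrix.updateRow_apply]
      · simp [Matrix.updateRow_apply]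
  rw [h1, det_fromBlocks_zero₂₁, det_one, mul_one]
  rfl

lemma kir_option (G : SimpleGraph (Option W)) (x : G.edgeSet → A) :
    kir G x = Matrix.det fun a b => lap (ez G x) (some a) (some b) := by
  rw [kir_eq_tau, ← matrix_tree (ez G x) (ez_diag G x) none, det_updateRow_none]

end opt

section lap

variable {V A : Type} [Fintype V] [DecidableEq V] [CommRing A] (w : Sym2 V → A)

lemma lap_symm (u v : V) : lap w u v = lap w v u := by
  simp only [lap, Matrix.of_apply]
  by_cases h : u = v
  · subst h
    rfl
  · simp [h, Ne.symm h, Sym2.eq_swap]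

lemma lap_off {u v : V} (h : u ≠ v) : lap w u v = - w s(u, v) := by
  simp only [lap, Matrix.of_apply]
  rw [if_neg h, zero_sub]

lemma lap_diag (hw : ∀ e : Sym2 V, e.IsDiag → w e = 0) (u : V) : lap w u u = ∑ t, w s(u, t) := by
  simp only [lap, Matrix.of_apply]
  rw [if_true, hw _ (Sym2.mk_isDiag_iff.mpr rfl), sub_zero]

lemma map_lap {B : Type} [CommRing B] (f : A →+* B) (u v : V) :
    f (lap w u v) = lap (fun e => f (w e)) u v := by
  simp only [lap, Matrix.of_apply]
  rw [map_sub]
  congr 1
  split_ifs
  · exact map_sum f _ _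
  · exact map_zero f

end lap

end Pool.Agent.H57.GH
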