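import Pool.Agent.H57.ZP.Three
import Pool.Agent.H57.ZP.KMain

/-!
# Symmetric matrices with prescribed elements
-/

set_option autoImplicit false

open CategoryTheory AlgebraicGeometry MvPolynomial Pool.Agent.Y116.UV Pool.Agent.Z125.UN Matrix
  Pool.Agent.H57.ZP

namespace Pool.Agent.H57.GH

section alg

variable {C : Type} [CommRing C] {W : Type} [Fintype W] [DecidableEq W]

/-- the elimination of one row and one column of a symmetric matrix -/
lemma det_elim (M : Matrix W W C) (i : W) (a t : C) (v : W → C) (hat : a * t = 1) (hv : v i = 0)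
    (hr : ∀ y, M i y = if y = i then a else 0) (hc : ∀ x, M x i = if x = i then a else 0) :
    (Matrix.det fun x y => M x y + (if x = i then v y else 0) + (if y = i then v x else 0) +
      t * v x * v y) = M.det := by
  have h1 : (Matrix.of fun x y => M x y + (if x = i then v y else 0) + (if y = i then v x else 0) +
      t * v x * v y) =
      (1 + vecMulVec (t • v) (Pi.single i 1)) * M * (1 + vecMulVec (Pi.single i 1) (t • v)) := by
    have e1 : vecMulVec (t • v) (Pi.single i 1) * M = vecMulVec (t • v) (a • Pi.single i 1) := by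
      rw [vecMulVec_mul]
      congr 1
      funext y
      rw [single_vecMul, one_smul]
      change M i y = _
      rw [hr, Pi.smul_apply, Pi.single_apply, smul_eq_mul]
      split_ifs <;> simp
    have e2 : M * vecMulVec (Pi.single i 1) (t • v) = vecMulVec (a • Pi.single i 1) (t • v) := by
      rw [mul_vecMulVec]
      congr 1
      funext x
      rw [mulVec_single, Pi.smul_apply]
      change MulOpposite.op (1 : C) • M x i = _
      rw [hc, Pi.smul_apply, Pi.single_apply, smul_eq_mul]
      split_ifs <;> simp
    rw [Matrix.add_mul, Matrix.one_mul, e1, Matrix.mul_add, Matrix.mul_one, Matrix.add_mul, e2]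
    have e3 : vecMulVec (t • v) (a • Pi.single i 1) * vecMulVec (Pi.single i 1) (t • v) =
        vecMulVec (t • v) v := by
      rw [vecMulVec_mul_vecMulVec]
      have : (a • Pi.single i (1 : C)) ⬝ᵥ (Pi.single i 1 : W → C) = a := by
        simp
      rw [this]
      ext x y
      simp only [vecMulVec_apply, Pi.smul_apply, smul_eq_mul]
      linear_combination (t * v x * v y) * hat
    rw [e3]
    ext x y
    simp only [Matrix.add_apply, vecMulVec_apply, Pi.smul_apply, smul_eq_mul, Pi.single_apply,
      Matrix.of_apply]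
    split_ifs
    · linear_combination (-(v x) - v y) * hat
    · linear_combination (-(v y)) * hat
    · linear_combination (-(v x)) * hat
    · ring
  have h2 : (1 + vecMulVec (t • v) (Pi.single i (1 : C))).det = 1 := by
    have := det_one_add_replicateCol_mul_replicateRow (ι := Unit) (t • v) (Pi.single i (1 : C))
    rw [vecMulVec_eq Unit, this]
    simp [hv]
  have h3 : (1 + vecMulVec (Pi.single i (1 : C)) (t • v)).det = 1 := by
    have := det_one_add_replicateCol_mul_replicateRow (ι := Unit) (Pi.single i (1 : C)) (t • v)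
    rw [vecMulVec_eq Unit, this]
    simp [hv]
  have h4 := congrArg Matrix.det h1
  rw [det_mul, det_mul, h2, h3, one_mul, mul_one] at h4
  exact h4

/-- the diagonal element divides the determinant -/
lemma dvd_det_of_row (M : Matrix W W C) (i : W) (hr : ∀ y, y ≠ i → M i y = 0) : M i i ∣ M.det := by
  have h1 : M = updateRow M i (M i i • Pi.single i 1) := by
    ext x y
    by_cases hx : x = i
    · subst hx
      rw [updateRow_self, Pi.smul_apply, Pi.single_apply, smul_eq_mul]
      split_ifs with hy
      · rw [hy, mul_one]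
      · rw [hr y hy, mul_zero]
    · rw [updateRow_ne hx]
  rw [h1, det_updateRow_smul, ← h1]
  exact dvd_mul_right _ _

/-- the determinant of a symmetric matrix with a zero block -/
lemma isUnit_block (c b : Matrix W W C) :
    IsUnit (fromBlocks 0 c cᵀ b).det ↔ IsUnit c.det := by
  have h1 : fromBlocks 0 c cᵀ b = fromBlocks c 0 b cᵀ * fromBlocks 0 1 1 0 := by
    rw [fromBlocks_multiply]
    simp
  have h2 : IsUnit (fromBlocks 0 1 1 0 : Matrix (W ⊕ W) (W ⊕ W) C).det := by
    refine IsUnit.of_mul_eq_one (fromBlocks 0 1 1 0 : Matrix (W ⊕ W) (W ⊕ W) C).det ?_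
    rw [← det_mul, fromBlocks_multiply]
    simp
  rw [h1, det_mul, det_fromBlocks_zero₁₂, det_transpose, IsUnit.mul_iff, IsUnit.mul_iff]
  exact ⟨fun h => h.1.1, fun h => ⟨⟨h, h⟩, h2⟩⟩

end alg

variable {R : Type} [CommRing R] {sep : Prop} {P : Sch R → Prop}

/-- an inverse of an invertible function as a new coordinate -/
lemma has_inv (hP : Bnd sep P) {σ : Type} [Finite σ] {F : Cond R σ} (hF : Has P F)
    (e : MvPolynomial σ R)
    (he : ∀ (C : Type) [CommRing C] [Algebra R C] (u : σ → C), F C u → IsUnit (aeval u e)) :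
    Has P (R := R) fun C _ _ (u : σ ⊕ Unit → C) =>
      (F C fun s => u (Sum.inl s)) ∧ aeval (fun s => u (Sum.inl s)) e * u (Sum.inr ()) = 1 := by
  refine hF.iso hP ((hF.rep.reindex Sum.inl).and
    ((rep_eq (rename Sum.inl e * X (Sum.inr ()) - 1)).congr fun C _ _ u => ?_))
    (fun s => X (Sum.inl s)) ?_ ?_ ?_
  · rw [map_sub, map_mul, aeval_rename, aeval_X, map_one, sub_eq_zero]
    rfl
  · intro C _ _ u hu
    simp only [aeval_X]
    exact hu.1
  · intro C _ _ u hu
    obtain ⟨t, ht⟩ := (he C u hu).exists_right_inv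
    exact ⟨Sum.elim u fun _ => t, ⟨hu, ht⟩, fun s => by rw [aeval_X]; rfl⟩
  · intro C _ _ u u' hu hu' h3
    simp only [aeval_X] at h3
    have h4 : (fun s => u (Sum.inl s)) = fun s => u' (Sum.inl s) := funext h3
    funext x
    rcases x with x | x
    · exact h3 x
    · have h5 := hu.2
      have h6 := hu'.2
      rw [h4] at h5
      change u (Sum.inr ()) = u' (Sum.inr ())
      linear_combination (u' (Sum.inr ())) * h5 - (u (Sum.inr ())) * h6

section cond

variable {W : Type} [Fintype W] [DecidableEq W]

/-- the invertible symmetric matrices with prescribed elements -/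
def SM (Y : W × W → Option R) : Cond R (W × W) :=
  fun C _ _ M => VK Y C M ∧ (∀ x y, M (x, y) = M (y, x)) ∧ IsUnit (Matrix.det fun a b => M (a, b))

lemma rep_SM (Y : W × W → Option R) : IsRep (SM Y) := by
  refine ((rep_VK Y).and ((rep_all fun x : W × W =>
    (X (x.1, x.2) - X (x.2, x.1) : MvPolynomial (W × W) R)).and (rep_unit (Matrix.det
      (Matrix.of fun a b => (X (a, b) : MvPolynomial (W × W) R)))))).congr fun C _ _ u => ?_
  have h2 : aeval u (Matrix.det (Matrix.of fun a b => (X (a, b) : MvPolynomial (W × W) R))) =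
      Matrix.det fun a b => u (a, b) := by
    rw [AlgHom.map_det]
    congr 1
    ext a b
    exact aeval_X _ _
  rw [h2]
  simp only [map_sub, aeval_X, sub_eq_zero]
  exact ⟨fun h => ⟨h.1, fun x y => h.2.1 (x, y), h.2.2⟩, fun h => ⟨h.1, fun x => h.2.1 _ _, h.2.2⟩⟩

/-- row and column `i` are zero outside of the diagonal -/
def rz (Y : W × W → Option R) (i : W) : W × W → Option R := fun x =>
  if (x.1 = i ∧ x.2 ≠ i) ∨ (x.1 ≠ i ∧ x.2 = i) then some 0 else Y x

/-- the diagonal element `i` is zero -/
def dz (Y : W × W → Option R) (i : W) : W × W → Option R := fun x =>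
  if x = (i, i) then some 0 else Y x

/-- the row vector `i` -/
noncomputable def vp (Y : W × W → Option R) (i : W) (x : W) :
    MvPolynomial ((W × W ⊕ {x : W // x ≠ i ∧ Y (i, x) = none}) ⊕ Unit) R :=
  if h : x ≠ i ∧ Y (i, x) = none then X (Sum.inl (Sum.inr ⟨x, h⟩)) else
    if x = i then 0 else C ((Y (i, x)).getD 0)

/-- its values -/
noncomputable def vv (Y : W × W → Option R) (i : W) {C : Type} [CommRing C] [Algebra R C]
    (u : (W × W ⊕ {x : W // x ≠ i ∧ Y (i, x) = none}) ⊕ Unit → C) (x : W) : C :=
  if h : x ≠ i ∧ Y (i, x) = none then u (Sum.inl (Sum.inr ⟨x, h⟩)) else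
    if x = i then 0 else algebraMap R C ((Y (i, x)).getD 0)

omit [Fintype W] in
lemma aeval_vp (Y : W × W → Option R) (i : W) {C : Type} [CommRing C] [Algebra R C]
    (u : (W × W ⊕ {x : W // x ≠ i ∧ Y (i, x) = none}) ⊕ Unit → C) (x : W) :
    aeval u (vp Y i x) = vv Y i u x := by
  unfold vp vv
  split_ifs
  · exact aeval_X _ _
  · exact map_zero _
  · exact aeval_C _ _

omit [Fintype W] in
lemma vv_self (Y : W × W → Option R) (i : W) {C : Type} [CommRing C] [Algebra R C]
    (u : (W × W ⊕ {x : W // x ≠ i ∧ Y (i, x) = none}) ⊕ Unit → C) : vv Y i u i = 0 := by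
  unfold vv
  rw [dif_neg (fun h => h.1 rfl), if_pos rfl]

omit [Fintype W] in
lemma vv_some (Y : W × W → Option R) (i : W) {C : Type} [CommRing C] [Algebra R C]
    (u : (W × W ⊕ {x : W // x ≠ i ∧ Y (i, x) = none}) ⊕ Unit → C) {x : W} (hx : x ≠ i) {c : R}
    (hc : Y (i, x) = some c) : vv Y i u x = algebraMap R C c := by
  unfold vv
  rw [dif_neg (fun h => by rw [hc] at h; exact Option.some_ne_none c h.2), if_neg hx, hc]
  rfl

/-- **The part where a diagonal element is invertible.** -/
lemma step_unit (hP : Bnd sep P) (Y : W × W → Option R) (i : W) (hs : ∀ x y, Y (x, y) = Y (y, x))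
    (hi : Y (i, i) = none)
    (hf : ∀ x y, x ≠ i → y ≠ i → Y (i, x) ≠ some 0 → Y (i, y) ≠ some 0 → Y (x, y) = none)
    (h : Has P (SM (rz Y i))) :
    Has P (R := R) fun C _ _ u => SM Y C u ∧ IsUnit (aeval u (X (i, i) : MvPolynomial (W × W) R)) := by
  have hz : ∀ (C : Type) [CommRing C] [Algebra R C] (M : W × W → C), SM (rz Y i) C M →
      (∀ y, y ≠ i → M (i, y) = 0) ∧ (∀ x, x ≠ i → M (x, i) = 0) := by
    intro C _ _ M hM
    refine ⟨fun y hy => ?_, fun x hx => ?_⟩
    · have := hM.1 (i, y) 0 (if_pos (Or.inl ⟨rfl, hy⟩))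
      rwa [map_zero] at this
    · have := hM.1 (x, i) 0 (if_pos (Or.inr ⟨hx, rfl⟩))
      rwa [map_zero] at this
  have h1 := has_space hP {x : W // x ≠ i ∧ Y (i, x) = none} h
  have h2 := has_inv hP h1 (X (Sum.inl (i, i))) (by
    intro C _ _ u hu
    rw [aeval_X]
    exact isUnit_of_dvd_unit (dvd_det_of_row (fun a b => u (Sum.inl (a, b))) i
      fun y hy => (hz C _ hu).1 y hy) hu.2.2)
  -- the products of the elements of the row
  have hw : ∀ (C : Type) [CommRing C] [Algebra R C] (v : W → C),
      (∀ x, x ≠ i → Y (i, x) = some 0 → v x = 0) → ∀ x y, x ≠ i → y ≠ i → ∀ c, Y (x, y) = some c →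
      v x * v y = 0 := by
    intro C _ _ v hv x y hx hy c hc
    by_cases h3 : Y (i, x) = some 0
    · rw [hv x hx h3, zero_mul]
    · by_cases h4 : Y (i, y) = some 0
      · rw [hv y hy h4, mul_zero]
      · have := hf x y hx hy h3 h4
        rw [hc] at this
        exact absurd this (Option.some_ne_none c)
  have hp : ∀ (C : Type) [CommRing C] [Algebra R C]
      (u : (W × W ⊕ {x : W // x ≠ i ∧ Y (i, x) = none}) ⊕ Unit → C) (x : W × W),
      aeval u (X (Sum.inl (Sum.inl x)) + (if x.1 = i then vp Y i x.2 else 0) +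
        (if x.2 = i then vp Y i x.1 else 0) + X (Sum.inr ()) * vp Y i x.1 * vp Y i x.2) =
      u (Sum.inl (Sum.inl x)) + (if x.1 = i then vv Y i u x.2 else 0) +
        (if x.2 = i then vv Y i u x.1 else 0) + u (Sum.inr ()) * vv Y i u x.1 * vv Y i u x.2 := by
    intro C _ _ u x
    rw [map_add, map_add, map_add, map_mul, map_mul, aeval_X, aeval_X, aeval_vp, aeval_vp]
    congr 1
    congr 1
    · congr 1
      split_ifs
      · exact aeval_vp _ _ _ _
      · exact map_zero _
    · split_ifs
      · exact aeval_vp _ _ _ _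
      · exact map_zero _
  refine Has.iso' hP ((rep_SM Y).and (rep_unit _)) h2 (fun x => X (Sum.inl (Sum.inl x)) +
    (if x.1 = i then vp Y i x.2 else 0) + (if x.2 = i then vp Y i x.1 else 0) +
    X (Sum.inr ()) * vp Y i x.1 * vp Y i x.2) ?_ ?_ ?_
  · intro C _ _ u hu
    simp only [hp, aeval_X]
    have hM : SM (rz Y i) C fun s => u (Sum.inl (Sum.inl s)) := hu.1
    have ht : u (Sum.inl (Sum.inl (i, i))) * u (Sum.inr ()) = 1 := by
      have := hu.2
      rwa [aeval_X] at this
    have hz1 : ∀ y, y ≠ i → u (Sum.inl (Sum.inl (i, y))) = 0 := (hz C _ hM).1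
    have hz2 : ∀ x, x ≠ i → u (Sum.inl (Sum.inl (x, i))) = 0 := (hz C _ hM).2
    have hv0 := vv_self Y i u
    refine ⟨⟨?_, ?_, ?_⟩, ?_⟩
    · rintro ⟨x, y⟩ c hc
      change u (Sum.inl (Sum.inl (x, y))) + (if x = i then vv Y i u y else 0) +
        (if y = i then vv Y i u x else 0) + u (Sum.inr ()) * vv Y i u x * vv Y i u y = _
      by_cases hx : x = i
      · subst hx
        by_cases hy : y = x
        · subst hy
          rw [hi] at hc
          exact absurd hc.symm (Option.some_ne_none c)
        · rw [if_pos rfl, if_neg hy, hv0, vv_some Y x u hy hc, hz1 y hy]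
          ring
      · by_cases hy : y = i
        · subst hy
          rw [if_neg hx, if_pos rfl, hv0, vv_some Y y u hx ((hs y x).trans hc), hz2 x hx]
          ring
        · rw [if_neg hx, if_neg hy, mul_assoc, hw C (vv Y i u) (fun x hx h3 => by
            rw [vv_some Y i u hx h3, map_zero]) x y hx hy c hc, add_zero, add_zero, mul_zero,
            add_zero]
          refine hM.1 (x, y) c ?_
          unfold rz
          rw [if_neg (by simp [hx, hy])]
          exact hc
    · intro x y
      have h3 : u (Sum.inl (Sum.inl (x, y))) = u (Sum.inl (Sum.inl (y, x))) := hM.2.1 x y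
      change u (Sum.inl (Sum.inl (x, y))) + (if x = i then vv Y i u y else 0) +
        (if y = i then vv Y i u x else 0) + u (Sum.inr ()) * vv Y i u x * vv Y i u y =
        u (Sum.inl (Sum.inl (y, x))) + (if y = i then vv Y i u x else 0) +
        (if x = i then vv Y i u y else 0) + u (Sum.inr ()) * vv Y i u y * vv Y i u x
      rw [h3]
      ring
    · have h3 := det_elim (fun a b => u (Sum.inl (Sum.inl (a, b)))) i
        (u (Sum.inl (Sum.inl (i, i)))) (u (Sum.inr ())) (vv Y i u) ht hv0
        (fun y => by
          split_ifs with hy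
          · rw [hy]
          · exact hz1 y hy)
        (fun x => by
          split_ifs with hx
          · rw [hx]
          · exact hz2 x hx)
      change IsUnit (Matrix.det fun a b => u (Sum.inl (Sum.inl (a, b))) +
        (if a = i then vv Y i u b else 0) + (if b = i then vv Y i u a else 0) +
        u (Sum.inr ()) * vv Y i u a * vv Y i u b)
      rw [h3]
      exact hM.2.2
    · simpa only [hv0, ite_self, add_zero, mul_zero] using IsUnit.of_mul_eq_one _ ht
  · intro C _ _ u hu
    obtain ⟨hM, hun⟩ := hu
    rw [aeval_X] at hun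
    obtain ⟨t, ht⟩ := hun.exists_right_inv
    let w : W → C := fun x => if x = i then 0 else u (i, x)
    have hwi : w i = 0 := if_pos rfl
    have hwn : ∀ x, x ≠ i → w x = u (i, x) := fun x hx => if_neg hx
    let N : W × W → C := fun x => u x - (if x.1 = i then w x.2 else 0) -
      (if x.2 = i then w x.1 else 0) - t * w x.1 * w x.2
    have hN : ∀ x y, N (x, y) = u (x, y) - (if x = i then w y else 0) -
      (if y = i then w x else 0) - t * w x * w y := fun x y => rfl
    have hN1 : ∀ y, y ≠ i → N (i, y) = 0 := by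
      intro y hy
      rw [hN, if_pos rfl, if_neg hy, hwi, hwn y hy]
      ring
    have hN2 : ∀ x, x ≠ i → N (x, i) = 0 := by
      intro x hx
      rw [hN, if_neg hx, if_pos rfl, hwi, hwn x hx, hM.2.1 x i]
      ring
    have hN3 : N (i, i) = u (i, i) := by
      rw [hN, hwi, ite_self]
      ring
    let u' : (W × W ⊕ {x : W // x ≠ i ∧ Y (i, x) = none}) ⊕ Unit → C :=
      Sum.elim (Sum.elim N fun x => u (i, x.1)) fun _ => t
    have hvu : ∀ x, vv Y i u' x = w x := by
      intro x
      by_cases hx : x = i
      · subst hx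
        rw [vv_self, hwi]
      · rw [hwn x hx]
        cases hc : Y (i, x) with
        | none =>
          unfold vv
          rw [dif_pos ⟨hx, hc⟩]
          rfl
        | some c =>
          rw [vv_some Y i u' hx hc, hM.1 (i, x) c hc]
    refine ⟨u', ⟨⟨?_, ?_, ?_⟩, ?_⟩, ?_⟩
    · rintro ⟨x, y⟩ c hc
      change N (x, y) = _
      unfold rz at hc
      by_cases hx : x = i
      · by_cases hy : y = i
        · rw [if_neg (by simp [hx, hy]), hx, hy, hi] at hc
          exact absurd hc.symm (Option.some_ne_none c)
        · rw [if_pos (Or.inl ⟨hx, hy⟩)] at hc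
          rw [← Option.some_injective _ hc, map_zero, hx]
          exact hN1 y hy
      · by_cases hy : y = i
        · rw [if_pos (Or.inr ⟨hx, hy⟩)] at hc
          rw [← Option.some_injective _ hc, map_zero, hy]
          exact hN2 x hx
        · rw [if_neg (by simp [hx, hy])] at hc
          rw [hN, if_neg hx, if_neg hy, mul_assoc, hw C w (fun x hx h3 => by
            rw [hwn x hx, hM.1 (i, x) 0 h3, map_zero]) x y hx hy c hc, hM.1 (x, y) c hc]
          ring
    · intro x y
      change N (x, y) = N (y, x)
      rw [hN, hN, hM.2.1 x y]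
      ring
    · have h3 := det_elim (fun a b => N (a, b)) i (u (i, i)) t w ht hwi
        (fun y => by
          split_ifs with hy
          · rw [hy, hN3]
          · exact hN1 y hy)
        (fun x => by
          split_ifs with hx
          · rw [hx, hN3]
          · exact hN2 x hx)
      change IsUnit (Matrix.det fun a b => N (a, b))
      rw [← h3]
      have h4 : (fun x y => N (x, y) + (if x = i then w y else 0) + (if y = i then w x else 0) +
          t * w x * w y) = fun x y => u (x, y) := by
        funext x y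
        rw [hN]
        ring
      rw [h4]
      exact hM.2.2
    · rw [aeval_X]
      change N (i, i) * t = 1
      rw [hN3]
      exact ht
    · rintro ⟨x, y⟩
      rw [hp]
      simp only [hvu]
      change N (x, y) + (if x = i then w y else 0) + (if y = i then w x else 0) +
          t * w x * w y = u (x, y)
      rw [hN]
      ring
  · intro C _ _ u u' hu hu' h3
    have h4 : ∀ x y, u (Sum.inl (Sum.inl (x, y))) + (if x = i then vv Y i u y else 0) +
        (if y = i then vv Y i u x else 0) + u (Sum.inr ()) * vv Y i u x * vv Y i u y =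
        u' (Sum.inl (Sum.inl (x, y))) + (if x = i then vv Y i u' y else 0) +
        (if y = i then vv Y i u' x else 0) + u' (Sum.inr ()) * vv Y i u' x * vv Y i u' y := by
      intro x y
      have := h3 (x, y)
      rwa [hp, hp] at this
    have hz1 : ∀ y, y ≠ i → u (Sum.inl (Sum.inl (i, y))) = 0 := (hz C _ hu.1).1
    have hz1' : ∀ y, y ≠ i → u' (Sum.inl (Sum.inl (i, y))) = 0 := (hz C _ hu'.1).1
    have e1 : u (Sum.inl (Sum.inl (i, i))) = u' (Sum.inl (Sum.inl (i, i))) := by
      have := h4 i i
      rw [vv_self, vv_self] at this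
      simpa using this
    have e2 : u (Sum.inr ()) = u' (Sum.inr ()) := by
      have h5 := hu.2
      have h6 := hu'.2
      rw [aeval_X] at h5 h6
      change u (Sum.inl (Sum.inl (i, i))) * u (Sum.inr ()) = 1 at h5
      change u' (Sum.inl (Sum.inl (i, i))) * u' (Sum.inr ()) = 1 at h6
      rw [e1] at h5
      linear_combination (u' (Sum.inr ())) * h5 - (u (Sum.inr ())) * h6
    have e3 : ∀ y, vv Y i u y = vv Y i u' y := by
      intro y
      by_cases hy : y = i
      · rw [hy, vv_self, vv_self]
      · have h5 := h4 i y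
        have h6 := hz1 y hy
        have h7 := hz1' y hy
        rw [vv_self, vv_self, if_pos rfl, if_pos rfl, if_neg hy, h6, h7] at h5
        simpa using h5
    funext x
    rcases x with (⟨x, y⟩ | x) | x
    · have h5 := h4 x y
      rw [e2, e3 x, e3 y] at h5
      exact add_right_cancel (add_right_cancel (add_right_cancel h5))
    · have h5 := e3 x.1
      unfold vv at h5
      rw [dif_pos x.2, dif_pos x.2] at h5
      exact h5
    · exact e2

/-- **A zero on the diagonal.** -/
lemma step_zero (hP : Bnd sep P) (Y : W × W → Option R) (i : W) (hs : ∀ x y, Y (x, y) = Y (y, x))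
    (hi : Y (i, i) = none)
    (hf : ∀ x y, x ≠ i → y ≠ i → Y (i, x) ≠ some 0 → Y (i, y) ≠ some 0 → Y (x, y) = none)
    (h0 : Has P (SM Y)) (h : Has P (SM (rz Y i))) : Has P (SM (dz Y i)) := by
  refine (has_closed hP h0 _ (step_unit hP Y i hs hi hf h)).congr fun C _ _ u => ?_
  rw [aeval_X]
  constructor
  · rintro ⟨h1, h2⟩
    refine ⟨fun x c hc => ?_, h1.2⟩
    unfold dz at hc
    split_ifs at hc with hx
    · rw [hx, h2, ← Option.some_injective _ hc, map_zero]
    · exact h1.1 x c hc
  · rintro ⟨h1, h2⟩
    refine ⟨⟨fun x c hc => ?_, h2⟩, ?_⟩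
    · refine h1 x c ?_
      unfold dz
      rw [if_neg]
      · exact hc
      · rintro rfl
        rw [hi] at hc
        exact absurd hc.symm (Option.some_ne_none c)
    · have := h1 (i, i) 0 (if_pos rfl)
      rwa [map_zero] at this

end cond

end Pool.Agent.H57.GH
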